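import Pool.Agent.Y104.WL.Pu2

/-!
# Antisymmetrized products of linearly independent classes are not zero
-/

open CategoryTheory AlgebraicGeometry

set_option autoImplicit false

universe u v

namespace Pool.Agent.Y363.WL

open Pool.Agent.H914 Pool.Agent.H914.VarClass Pool.Agent.H914.VarClass.Obj
  Pool.Agent.H914.WeilCohomology Pool.Agent.H281R3.HT Pool.Agent.TH125.Gal
  Pool.Agent.Y104.Geo Pool.Agent.Y104.WL

variable {k : Type u} [Field k] {𝒱 : VarClass k} {ops : CycleOps 𝒱}

/-- Linear forms on a power with given values on external products. -/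
theorem exists_form (W : WeilCohomology.{u, v} ops) (X : 𝒱.Obj) (n : ℕ) :
    ∀ lam : Fin (n + 1) → Module.Dual W.K (W.H X),
    ∃ Φ : Module.Dual W.K (W.H (pw X n)), ∀ w : Fin (n + 1) → W.H X,
      Φ (List.ofFn fun a => W.map (pwπ X n a) (w a)).prod = ∏ a, lam a (w a) := by
  induction n with
  | zero =>
    intro lam
    refine ⟨lam 0, fun w => ?_⟩
    rw [List.ofFn_succ, List.ofFn_zero, List.prod_cons, List.prod_nil, mul_one,
      Fin.prod_univ_one]
    change lam 0 (W.map (𝟙 X) (w 0)) = _
    rw [W.map_id]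
  | succ n ih =>
    intro lam
    obtain ⟨Φ', h'⟩ := ih fun i => lam i.succ
    let e := LinearEquiv.ofBijective _ (W.kunneth X (pw X n))
    let Φ : Module.Dual W.K (W.H (X.prod (pw X n))) :=
      (TensorProduct.lift ((LinearMap.mul W.K W.K).compl₁₂ (lam 0) Φ')) ∘ₗ
        (e.symm : W.H (X.prod (pw X n)) →ₗ[W.K] _)
    have hΦ : ∀ (a : W.H X) (b : W.H (pw X n)),
        Φ (W.map (fst X (pw X n)) a * W.map (snd X (pw X n)) b) = lam 0 a * Φ' b := by
      intro a b
      have h1 : e (TensorProduct.tmul W.K a b) =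
          W.map (fst X (pw X n)) a * W.map (snd X (pw X n)) b := by
        change kunnethMap _ _ _ = _
        simp only [kunnethMap, TensorProduct.lift.tmul, LinearMap.compl₁₂_apply,
          LinearMap.mul_apply', AlgHom.toLinearMap_apply]
      rw [← h1]
      change TensorProduct.lift ((LinearMap.mul W.K W.K).compl₁₂ (lam 0) Φ') (e.symm (e _)) = _
      rw [e.symm_apply_apply, TensorProduct.lift.tmul, LinearMap.compl₁₂_apply,
        LinearMap.mul_apply']
    refine ⟨Φ, fun w => ?_⟩
    rw [List.ofFn_succ, List.prod_cons, Fin.prod_univ_succ]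
    change Φ (W.map (fst X (pw X n)) (w 0) *
      (List.ofFn fun i : Fin (n + 1) => W.map (snd X (pw X n) ≫ pwπ X n i) (w i.succ)).prod) = _
    have h1 : (List.ofFn fun i : Fin (n + 1) =>
        W.map (snd X (pw X n) ≫ pwπ X n i) (w i.succ)).prod =
        W.map (snd X (pw X n))
          (List.ofFn fun i : Fin (n + 1) => W.map (pwπ X n i) (w i.succ)).prod := by
      rw [map_list_prod, List.map_ofFn]
      congr 2
      funext i
      exact W.map_comp _ _ _
    rw [h1, hΦ, h']

/-- Linear forms dual to linearly independent vectors. -/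
theorem exists_dual {K V : Type*} [Field K] [AddCommGroup V] [Module K V] {ι : Type*}
    [DecidableEq ι] {v : ι → V} (hv : LinearIndependent K v) :
    ∃ lam : ι → Module.Dual K V, ∀ a b, lam a (v b) = if a = b then 1 else 0 := by
  have h : ∀ a, ∃ g : V →ₗ[K] K, g ∘ₗ (Submodule.span K (Set.range v)).subtype =
      (Finsupp.lapply a) ∘ₗ (hv.repr : _ →ₗ[K] (ι →₀ K)) := fun a => LinearMap.exists_extend _
  choose lam hlam using h
  refine ⟨lam, fun a b => ?_⟩
  have h1 := DFunLike.congr_fun (hlam a) ⟨v b, Submodule.subset_span ⟨b, rfl⟩⟩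
  have h2 : hv.repr ⟨v b, Submodule.subset_span ⟨b, rfl⟩⟩ = Finsupp.single b 1 :=
    hv.repr_eq_single b _ rfl
  change lam a (v b) = hv.repr ⟨v b, Submodule.subset_span ⟨b, rfl⟩⟩ a at h1
  rw [h1, h2, Finsupp.single_apply]
  by_cases hab : a = b
  · rw [if_pos hab, if_pos hab.symm]
  · rw [if_neg hab, if_neg (fun h => hab h.symm)]

theorem alt_ne : S_ALT.{u, v} := by
  intro k _ 𝒱 ops W X n v hv h0
  obtain ⟨lam, hlam⟩ := exists_dual hv
  obtain ⟨Φ, hΦ⟩ := exists_form W X n lam
  have h1 : Φ (altClass W X n v) = 1 := by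
    rw [altClass, map_sum, Finset.sum_eq_single (1 : Equiv.Perm (Fin (n + 1)))]
    · rw [map_smul, hΦ fun a => v ((1 : Equiv.Perm (Fin (n + 1))) a)]
      simp [hlam]
    · intro σ _ hσ
      rw [map_smul, hΦ fun a => v (σ a)]
      obtain ⟨a, ha⟩ : ∃ a, σ a ≠ a := by
        by_contra hc
        push Not at hc
        exact hσ (Equiv.ext hc)
      rw [Finset.prod_eq_zero (Finset.mem_univ a), smul_zero]
      rw [hlam, if_neg fun h => ha h.symm]
    · intro h
      exact absurd (Finset.mem_univ _) h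
  rw [h0, map_zero] at h1
  exact zero_ne_one h1

end Pool.Agent.Y363.WL
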